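import Pool.Agent.T6.H33.GN.Weight

/-!
# Weight-monodromy in all degrees when the intersections of the components have algebraic cohomology

Let `X` be a smooth proper rigid-analytic variety of dimension `n` over `K` which has a strictly semistable formal model over
the ring of integers with projective special fibre (algebraicity of `X` is not assumed); `Y_i` are the components of the
geometric special fibre. The strata of codimension `p` are the connected components of the intersections of `p + 1` different
components; their disjoint union is `Y^(p)`. We prove the conclusion of Q1 **for all degrees `i` and all `j`** if

(a) for `p ≥ 1` the cohomology of `Y^(p)` is the direct sum of the classes of algebraic cycles (with `ℚ_ℓ`-coefficients, up to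
    numerical equivalence) and of a part `T` on which the restriction map to `Y^(p+1)` and the Gysin map to `Y^(p-1)` are zero;
(b) the images of the restrictions `H^*(Y_i) → H^*(Y^(1))` are the images of the algebraic classes (and the dual condition:
    the Gysin image in `H^*(Y^(0))` of an algebraic class on `Y^(1)` is zero if it is numerically equivalent to zero);
(c) if `n > 3`, the algebraic classes of the strata satisfy the Hodge-Riemann relations (Hodge standard conjecture).

The components `Y_i` are not assumed to have algebraic cohomology.

**For `n ≤ 3` there is no condition (c)**: the relations needed are those for divisors, the Hodge index theorem. For threefolds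
(a) holds if the double surfaces `Y_i ∩ Y_j` have `H¹ = 0` and `H²` spanned by divisors, for example if they are rational (the
double curves `Y_i ∩ Y_j ∩ Y_k` are arbitrary; `T` is their first cohomology group), and then (b) holds if the components
satisfy the Tate conjecture for divisors over finite fields, or if their second cohomology group is spanned by divisors. For
`n > 3` the relations (c) are known for example for toric varieties, flag varieties and for their products.

*The algebraic classes* (`Strata`). `G p k` is the space of the algebraic classes of codimension `k` on `Y^(p)` up to numerical
equivalence, with rational coefficients; `A` is their sum; `L` is the product with the class of an ample line bundle on the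
special fibre, `d` the restriction map `A^k(Y^(p)) → A^k(Y^(p+1))` and `gys` the Gysin map `A^k(Y^(p+1)) → A^(k+1)(Y^(p))`, both
with the alternating signs of the dual complex, `pair` the intersection form. `IsGraded` and `IsWeightComplex` are the standard
facts (numerical equivalence, projection formula; `d gys + gys d = 0` in codimension `p ≥ 1`, which follows from the
principality of the special fibre). `HodgeRiemann` are the Hodge-Riemann relations, `HodgeIndex` is their part for the classes
of codimension at most one. The hard Lefschetz theorem for numerical classes is not assumed, it follows (`hardLefschetz`).

*The cohomology* (`Coh`, `ClassMap`). `Q.G p m` is `H^m(Y^(p), ℚ_ℓ)` (up to a Tate twist). `ClassMap` has the class map `cl` and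
the part `T`; `IsSplit` is the condition (a) with the compatibilities of `cl`; `IsAlgebraicOnComponents` is the condition (b).

*The weight spectral sequence* (`Coh.term`, `Coh.cycles`, `Coh.boundaries`, `SpectralSequence`). The term `E_1^(-r, i+r)` is the
sum over all `s, t ≥ 0` with `s - t = r` of `H^(i-s-t)(Y^(s+t))(-s)` (the theorem of Rapoport and Zink; it holds for formal
models since the nearby cycles are local). The differential is the sum of the restriction maps from the summand `(s, t)` to
the summand `(s, t+1)` and of the Gysin maps to the summand `(s-1, t)`. `N` is given by the identity of the summands `(s, t)` and
`(s-1, t+1)` (`mono`). The sequence degenerates at `E_2` and the graded piece of weight `w` is pure of weight `w`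
(Weil conjectures). `Rep` is a representation with `N`, the weight filtration `W` and the Frobenius lifts.

`InducesIso (N^j) (W (i+j)) (W (i+j-1)) (W (i-j)) (W (i-j-1))` says that `N^j` induces an isomorphism from `gr^W_(i+j)` to
`gr^W_(i-j)`. `Rep.Holds i j` says that for the monodromy filtration `M` (defined as in the problem) all eigenvalues of all
geometric Frobenius lifts on `gr_j^M` are `q`-Weil numbers of weight `i + j`.

*The proof* follows the argument of Guillen and Navarro Aznar with a star operator: by the Hodge-Riemann relations the algebraic
classes of all strata have the rational scalar product `(a, b) = a · ⋆b`; one computes the adjoints of `d` and `gys` (the Kähler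
identities, for the triple `L, Λ, H`), and shows that the Laplacian of the first term `E_1` commutes with `N`; so `N^j` is an
isomorphism between the harmonic elements. The scalars are then extended to `ℚ_ℓ`, and the part `T` and the components are
added; the cohomology of the components is only met by its maps from and to `Y^(1)`.
-/

set_option autoImplicit false

namespace Pool.Agent.Results.MP_0f76a4_ag.AlgebraicStrata

open Pool.Agent.T6.H33.WM Pool.Agent.T6.H33.GN

/-- Let `S` be the algebraic classes and `Q` the cohomology of the strata of the geometric special fibre of a strictly
semistable formal model with projective special fibre of a smooth proper rigid-analytic variety `X` of dimension `n` over `K`,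
which satisfy the conditions (a), (b) and, if `n > 3`, (c). Then for every degree `i` and the representation `R` on
`H^i(X_C, ℚ_ℓ)`: for all `j ≥ 0` the map `N^j` induces an isomorphism of `gr^W_(i+j)` with `gr^W_(i-j)`, and for all `j` all
eigenvalues of the geometric Frobenius lifts on `gr_j^M` are `q`-Weil numbers of weight `i + j`. -/
theorem result {ℓ : ℕ} [Fact ℓ.Prime] {q n : ℕ} (S : Strata n) (hG : S.IsGraded) (hW : S.IsWeightComplex)
    (hI : S.HodgeIndex) (hR : 3 < n → S.HodgeRiemann) (Q : Coh ℚ_[ℓ]) (c : ClassMap (S.ext ℚ_[ℓ]) Q) (hc : c.IsSplit)
    (hb : c.IsAlgebraicOnComponents) (i : ℕ) (R : Rep ℚ_[ℓ] q) (h : SpectralSequence Q i R) :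
    (∀ j : ℕ, InducesIso (R.N ^ j) (R.W (i + j)) (R.W (i + j - 1)) (R.W (i - j)) (R.W (i - j - 1))) ∧
      ∀ j : ℤ, R.Holds i j := by
  have h1 : S.HodgeRiemann := by
    rcases le_or_gt n 3 with h2 | h2
    · exact hI.hodgeRiemann _ h2
    · exact hR h2
  have h2 := Strata.HodgeRiemann.hardLefschetz hG hW h1
  exact ⟨fun j => ⟨(h.grIso hG hW h2 h1 hc hb j).inj, (h.grIso hG hW h2 h1 hc hb j).surj⟩,
    fun j => h.holds hG hW h2 h1 hc hb j⟩

end Pool.Agent.Results.MP_0f76a4_ag.AlgebraicStrata
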