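import Pool.Agent.T6.H33.WM.Main

/-!
# Weight-monodromy for the extreme weights of rigid-analytic varieties with strictly semistable projective reduction

Let `X` be a smooth proper rigid-analytic variety of dimension `n` over `K` which has a strictly semistable formal model over
the ring of integers with projective special fibre (algebraicity of `X` is not assumed). We prove that for all `i > 0` the
monodromy operator induces an isomorphism

  `N^i : gr^W_(2 i) H^i(X_C, ℚ_ℓ) ≅ gr^W_0 H^i(X_C, ℚ_ℓ)(-i)`

between the graded pieces of highest and of lowest weight (`W` is the filtration of the weight spectral sequence). It follows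
that all eigenvalues of the geometric Frobenius lifts on `gr^j_M H^i` and on `gr^j_M H^(2n - i)` are `q`-Weil numbers of weight
`i + j` and `2n - i + j` **for all `j` with `|j| ≥ i`, and for all `j` if `i = 1`**.

*The special fibre* (`Fibre`). `V` is the set of the irreducible components `Y_v` of the geometric special fibre and `S` the set
of the strata `Y_σ`, the irreducible (= connected) components of the intersections of the `Y_v`; `vert σ` is the set of the
components containing `Y_σ`. Every stratum is contained in exactly one component of the intersection of the `Y_v`, `v ∈ A`, for
all non-empty subsets `A` of `vert σ` (so `S` is the dual complex, a simplicial partially ordered set). Let `L` be an ample line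
bundle on the special fibre. The data are the Neron-Severi groups of the strata (divisors up to numerical equivalence,
tensored with `ℚ`), the degrees `L^m > 0` of the strata, `m` the dimension of the stratum, the degrees `D L^(m-1)` and the
intersection numbers `D D' L^(m-2)` of divisors (zero by definition if the exponent is negative), the restrictions of the line
bundles `O(Y_v)` to the strata, and the classes of the strata as divisors on the strata. The conditions are the standard facts:
the sum of the components of the special fibre is the principal divisor of the uniformiser; different components meet
transversally; the self-intersection formula; and the Hodge index theorem for divisors on the smooth projective strata. `H2` is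
the group `H²(Y_σ, ℚ_ℓ)(1)` with the first Chern class and the trace of the product with `c_1(L)^(m-1)`.

*The cohomology* (`Rep`, `WeightSequence`). The weight spectral sequence of Rapoport and Zink exists for strictly semistable
formal schemes, since the nearby cycles are local for the étale topology and the cohomology of the rigid space is the
cohomology of the nearby cycles (Berkovich); by the Weil conjectures it degenerates and the graded piece `gr^W_w` is pure of
weight `w`. `WeightSequence Y i R` says that the two extreme terms `E_2^(-(i+1), 2(i+1))` and `E_2^(i+1, 0)` are the graded
pieces of highest and lowest weight of the representation `R` in degree `i + 1`: the first is the space of the families of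
numbers on the strata of codimension `i + 1` killed by the Gysin map to `H²(1)` and by the restriction map to `H⁰`, the second
is the cohomology of the dual complex, and `N^(i+1)` is induced by the identity. `PoincareDual n R R'` is the duality between
the representations in the degrees `i + 1` and `2n - (i + 1)`.

`Rep.Holds c j` says that for the monodromy filtration `M` (defined as in the problem) all eigenvalues of all geometric
Frobenius lifts on `gr_j^M` are `q`-Weil numbers of weight `c + j`.

*The proof.* A cocycle `x` of the dual complex with rational coefficients is changed by a coboundary so that it becomes harmonic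
for the scalar product given by the degrees of the strata: its Gysin image `D_τ`, a divisor class on the stratum `Y_τ`, has
degree zero. By the triple point formula, which follows from the principality of the special fibre, one has the energy identity
`∑ τ, D_τ² L^(m-2) = - ∑ ρ, deg(Y_ρ) (dx)(ρ)²`. The right hand side is zero and each summand on the left is at most zero by
the Hodge index theorem; so all are zero, and `D_τ = 0` for all `τ`. So every class of the cohomology of the dual complex has
exactly one representative which is killed by the Gysin map.
-/

set_option autoImplicit false

namespace Pool.Agent.Results.MP_0f76a4_ag.ExtremeWeights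

open Pool.Agent.T6.H33.WM

/-- Let `Y` be the geometric special fibre of a strictly semistable formal model with projective special fibre of a smooth
proper rigid-analytic variety `X` over `K`, and let `R` be the representation on `H^(i + 1)(X_C, ℚ_ℓ)`, with the filtration `W`
of the weight spectral sequence. Then `N^(i + 1)` induces an isomorphism `gr^W_(2 (i + 1)) ≅ gr^W_0`: its kernel is
`W_(2 (i + 1) - 1)` and its image is `W_0`; and, if `i + 1 ≤ |j|` or `i = 0`, then all eigenvalues of the geometric Frobenius
lifts on `gr_j^M` are `q`-Weil numbers of weight `i + 1 + j` for `H^(i + 1)` and of weight `2n - (i + 1) + j` for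
`H^(2n - (i + 1))`. -/
theorem result {ℓ : ℕ} [Fact ℓ.Prime] {q : ℕ} (Y : Fibre ℚ_[ℓ]) (i : ℕ) (R : Rep ℚ_[ℓ] q) (h : WeightSequence Y i R) :
    (LinearMap.ker (R.N ^ (i + 1)) = R.W (2 * (i + 1) - 1) ∧ LinearMap.range (R.N ^ (i + 1)) = R.W 0) ∧
      ∀ j : ℤ, i + 1 ≤ |j| ∨ i = 0 → R.Holds (i + 1) j ∧
        ∀ (n : ℕ) (R' : Rep ℚ_[ℓ] q), Rep.PoincareDual n R R' → R'.Holds (2 * n - (i + 1)) j := by
  have hE := h.extreme
  have e2 : ((i : ℤ) + 1 + ((i + 1 : ℕ) : ℤ)) = 2 * (i + 1) := by push_cast; ring
  have e3 : ((i : ℤ) + 1 - ((i + 1 : ℕ) : ℤ)) = 0 := by push_cast; ring
  refine ⟨⟨?_, ?_⟩, fun j hj => ⟨?_, fun n R' D => ?_⟩⟩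
  · have h1 := hE.ker
    rwa [e2] at h1
  · have h1 := hE.range
    rwa [e3] at h1
  · exact Rep.Extreme.holds _ hE (hj.imp (fun h => by push_cast; exact h) fun h => by rw [h])
  · exact Rep.Extreme.holds _ (D.extreme hE) (hj.imp (fun h => by push_cast; exact h) fun h => by rw [h])

end Pool.Agent.Results.MP_0f76a4_ag.ExtremeWeights
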