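import Pool.Agent.T6.H33.WM.Middle

/-!
# Weight-monodromy in the middle degree, and for all surfaces, for strictly semistable projective reduction

Let `X` be a smooth proper rigid-analytic variety of dimension `n ≥ 2` over `K` which has a strictly semistable formal model
over the ring of integers with projective special fibre (algebraicity of `X` is not assumed). We prove the conclusion of Q1

* for `gr^j_M H^n(X_C, ℚ_ℓ)` and **all `j` with `|j| ≥ n - 1`, in all dimensions `n`**;
* **for all `i` and all `j` if `n = 2`.**

*The data.* The special fibre (`Fibre`), the representations (`Rep`), the extreme terms of the weight spectral sequence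
(`WeightSequence`), the duality (`Rep.PoincareDual`) and the conclusion `Rep.Holds` are as in the hand-in `ExtremeWeights`: the
dual complex with the intersection numbers of divisors with an ample class `L`, including the Hodge index theorem for divisors;
the terms `E_2^(-i, 2i)` and `E_2^(i, 0)`. New are the terms of weight `2n - 1` and `1` in the middle degree `n`
(`NextTerms`),

  `E_2^(-(n-1), 2n-1) = ker (H¹(Y^(n-1)) → H³(Y^(n-2))(1))` and `E_2^(n-1, 1) = coker (H¹(Y^(n-2)) → H¹(Y^(n-1)))`

(up to twists; the maps are the Gysin map and the restriction map and `N^(n-1)` is induced by the identity of `H¹(Y^(n-1))`);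
here `Y^(p)` is the disjoint union of the strata of codimension `p` in the special fibre, so `Y^(n-1)` is a union of curves and
`Y^(n-2)` is a union of surfaces. `FirstCohomology` has the groups `U = H¹(Y^(n-2))`, `V = H¹(Y^(n-1))` and
`H3 = H³(Y^(n-2))(1)`, the form `φ(x, y) = tr(x ∪ y ∪ c_1(L))`, the cup product `ψ` and the Poincare duality of the surfaces;
`IsGeometric` has the standard facts (Poincare duality, projection formula, hard Lefschetz theorem for `H¹`).

*Positivity.* Let `J` be the product of the Picard varieties of the strata of dimension one and two; its polarisation given by
`L` on the surfaces and by the theta divisors on the curves gives the Rosati involution on `A = End(J) ⊗ ℚ`, which is positive by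
Weil's theorem (`PositiveAlgebra`). `RosatiAction` says that `A` acts on `U × V`, that the involution is the adjunction for
`φ + ψ`, and that the restriction map `d` is given by an element `f` of `A` (the restriction of line bundles).

*The proof.* By positivity `f = w f' f` for an element `w` of `A`, where `f'` is the image of `f` under the involution; so the
restriction of `ψ` to the image of `d` is non-degenerate, and `V` is the direct sum of the image of `d` and its orthogonal
complement, the kernel of the Gysin map. This and the result for the extreme weights (harmonic cochains and Hodge index
theorem) show that the monodromy filtration and the weight filtration are equal in the corresponding range. For surfaces this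
is everything.
-/

set_option autoImplicit false

namespace Pool.Agent.Results.MP_0f76a4_ag.MiddleDegree

open Pool.Agent.T6.H33.WM

/-- Let `Y` be the geometric special fibre of a strictly semistable formal model with projective special fibre of a smooth
proper rigid-analytic variety `X` of dimension `m + 2`, with the first cohomology groups `P` of its strata of dimension one and
two. Then for the representation `R` on `H^(m + 2)(X_C, ℚ_ℓ)` and all `j` with `m + 1 ≤ |j|` all eigenvalues of the geometric
Frobenius lifts on `gr_j^M` are `q`-Weil numbers of weight `m + 2 + j`; and if `X` is a surface, then this is true for all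
degrees `i` and all `j`. -/
theorem result {ℓ : ℕ} [Fact ℓ.Prime] {q : ℕ} (Y : Fibre ℚ_[ℓ]) (P : FirstCohomology ℚ_[ℓ]) (hP : P.IsGeometric)
    (A : PositiveAlgebra) (hA : RosatiAction P A) :
    (∀ (m : ℕ) (R : Rep ℚ_[ℓ] q), MiddleSequence Y P m R → ∀ j : ℤ, m + 1 ≤ |j| → R.Holds (m + 2) j) ∧
      ∀ (X : SurfaceCohomology Y P q) (i : Fin 5) (j : ℤ), (X.R i).Holds (i : ℕ) j :=
  ⟨fun _ _ h j hj => h.holds hP hA j (Or.inl hj), fun X i j => X.holds hP hA i j⟩

end Pool.Agent.Results.MP_0f76a4_ag.MiddleDegree
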