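import Pool.Agent.T6.H15.PW.Main

/-!
# Weight-monodromy for a class of varieties closed under products

Let `P` be a class of smooth rigid-analytic `K`-varieties of pure dimension with an admissible formal
model with projective special fibre which is closed under products and contains the projective line,
for example all of them, or those generated by one `X` and the projective line. We fix a geometric
Frobenius lift `g`. `T : Theory` consists of the cohomology `H^m(X)` with the operation `F` of `g`, the
monodromy operator `N` and the monodromy filtration. The hypothesis `IsTheory` consists of known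
properties (`Pool/Agent/T6/H15/PW/Defs.lean`), `k` stands for an algebraic closure of `ℚ_ℓ`.

* The eigenvalues of `g` on `gr^j_M H^m(X)` are `q`-Weil numbers of weight `m + j` for all `X` in `P` and
  all `m, j` if and only if there is a function `δ(n) ≤ o(n)` such that for all `X` in `P` all conjugates
  of the eigenvalues of `g` on the invariants `ker N` of a small open subgroup of the inertia group in
  the middle cohomology `H^d(X)`, `d = dim X`, have absolute value at most `q^((d + δ(d)) / 2)`.
* If moreover the eigenvalues `β` on `ker N` have complements `γ` in `P` (this is true for the class of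
  all `X` by the Honda-Tate theorem), then it is equivalent that there is a function `δ(n) ≤ o(n)` such
  that for all `X` in `P` and all `r` with `2 r > d + δ(d)` the representation `H^d(X)(r)` has no nonzero
  vector which is invariant under an open subgroup of the Galois group.
-/

universe u w

open Pool.Agent.T6.H15.PW

namespace Pool.Agent.Results.MP_0f76a4_ag.SublinearWeights

theorem result {𝔖 : Type u} {k : Type w} [Field k] [CharZero k] [IsAlgClosed k]
    {T : Theory 𝔖 k} {q : ℕ} (hq : 2 ≤ q) (hT : T.IsTheory q) {P : 𝔖 → Prop} (hP : T.IsClosed P) :
    ((∀ X, P X → T.WeightMonodromy q X) ↔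
      ∃ δ, Sublinear δ ∧ ∀ X, P X → T.MiddleBound q X (δ (T.d X))) ∧
    ((∀ X, P X → T.HasComplements q P X) →
      ((∀ X, P X → T.WeightMonodromy q X) ↔
        ∃ δ, Sublinear δ ∧ ∀ X, P X → T.MiddleVanishing q X (δ (T.d X)))) :=
  ⟨main_bound hT hq hP, main_vanishing hT hq hP⟩

end Pool.Agent.Results.MP_0f76a4_ag.SublinearWeights
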